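import Mathlib

/-! Residues of elements fixed by a section. -/

set_option autoImplicit false

namespace Pool.Agent.V11235.SL

open Polynomial

/-- every element of a valuation ring that is algebraic over a subfield with residue field `k` is
congruent to an algebraic element over `k` -/
theorem residue_alg {k F N K : Type} [Field k] [Field F] [Field N] [Algebra k F] [Algebra F N]
    [Field K] [Algebra k K] [IsAlgClosed K] (ι : K →+* N)
    (hι : ∀ c : k, ι (algebraMap k K c) = algebraMap F N (algebraMap k F c))
    (W : ValuationSubring N) (hK : ∀ c : K, ι c ∈ W)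
    (hres : ∀ z : F, algebraMap F N z ∈ W →
      ∃ c : k, algebraMap F N (z - algebraMap k F c) ∈ W.nonunits) (z : N) (halg : IsAlgebraic F z)
    (hz : z ∈ W) : ∃ c : K, z - ι c ∈ W.nonunits := by
  classical
  obtain ⟨p, hp0, hpz⟩ := halg
  obtain ⟨j, hj, hmax⟩ := p.support.exists_max_image
    (fun i => W.valuation (algebraMap F N (p.coeff i))) (support_nonempty.2 hp0)
  have hj0 : p.coeff j ≠ 0 := mem_support_iff.1 hj
  have hj0' : algebraMap F N (p.coeff j) ≠ 0 := (_root_.map_ne_zero _).2 hj0
  have hvj : W.valuation (algebraMap F N (p.coeff j)) ≠ 0 := (Valuation.ne_zero_iff _).2 hj0'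
  have hb : ∀ i, algebraMap F N (p.coeff i / p.coeff j) ∈ W := by
    intro i
    rw [← ValuationSubring.valuation_le_one_iff, map_div₀, map_div₀]
    by_cases hi : i ∈ p.support
    · exact div_le_one_of_le₀ (hmax i hi) zero_le
    · rw [notMem_support_iff.1 hi, map_zero, map_zero, zero_div]
      exact zero_le_one
  choose c hc using fun i => hres _ (hb i)
  have hvz : W.valuation z ≤ 1 := (ValuationSubring.valuation_le_one_iff _ _).2 hz
  -- the relation
  have hrel : ∑ i ∈ p.support, algebraMap F N (p.coeff i / p.coeff j) * z ^ i = 0 := by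
    have h1 : ∑ i ∈ p.support, algebraMap F N (p.coeff i) * z ^ i = 0 := by
      rw [← hpz, aeval_def, eval₂_eq_sum, sum_def]
    have h2 : ∑ i ∈ p.support, algebraMap F N (p.coeff i / p.coeff j) * z ^ i =
        (algebraMap F N (p.coeff j))⁻¹ * ∑ i ∈ p.support, algebraMap F N (p.coeff i) * z ^ i := by
      rw [Finset.mul_sum]
      refine Finset.sum_congr rfl fun i _ => ?_
      rw [map_div₀, div_eq_mul_inv]
      ring
    rw [h2, h1, mul_zero]
  obtain ⟨Q, hQ⟩ : ∃ Q : k[X], Q = ∑ i ∈ p.support, C (c i) * X ^ i := ⟨_, rfl⟩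
  have hQz : (Q.map (algebraMap k K)).eval₂ ι z =
      ∑ i ∈ p.support, algebraMap F N (algebraMap k F (c i)) * z ^ i := by
    rw [hQ, Polynomial.map_sum, eval₂_finsetSum]
    refine Finset.sum_congr rfl fun i _ => ?_
    rw [Polynomial.map_mul, Polynomial.map_pow, map_C, map_X, eval₂_mul, eval₂_pow, eval₂_X,
      eval₂_C, hι]
  have hvQ : W.valuation ((Q.map (algebraMap k K)).eval₂ ι z) < 1 := by
    have h1 : (Q.map (algebraMap k K)).eval₂ ι z =
        -∑ i ∈ p.support, algebraMap F N (p.coeff i / p.coeff j - algebraMap k F (c i)) * z ^ i := by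
      rw [hQz, eq_neg_iff_add_eq_zero, ← Finset.sum_add_distrib, ← hrel]
      refine Finset.sum_congr rfl fun i _ => ?_
      rw [map_sub]
      ring
    rw [h1, Valuation.map_neg]
    refine Valuation.map_sum_lt _ one_ne_zero fun i _ => ?_
    rw [map_mul, map_pow]
    have h2 := (ValuationSubring.mem_nonunits_iff W).1 (hc i)
    calc W.valuation (algebraMap F N (p.coeff i / p.coeff j - algebraMap k F (c i))) *
        W.valuation z ^ i ≤ W.valuation (algebraMap F N (p.coeff i / p.coeff j -
          algebraMap k F (c i))) * 1 := by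
          gcongr
          exact pow_le_one₀ zero_le hvz
      _ < 1 := by rwa [mul_one]
  have hQ0 : Q ≠ 0 := by
    intro h0
    have h1 : Q.coeff j = c j := by
      rw [hQ, finsetSum_coeff]
      simp only [coeff_C_mul, coeff_X_pow]
      rw [Finset.sum_eq_single j]
      · simp
      · intro i _ hij
        rw [if_neg (Ne.symm hij), mul_zero]
      · intro h
        exact absurd hj h
    have h2 := (ValuationSubring.mem_nonunits_iff W).1 (hc j)
    rw [← h1, h0, coeff_zero, map_zero, sub_zero, div_self hj0, map_one, map_one] at h2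
    exact lt_irrefl _ h2
  -- the factorisation
  have hQK0 : Q.map (algebraMap k K) ≠ 0 :=
    (Polynomial.map_ne_zero_iff (algebraMap k K).injective).2 hQ0
  have hsp := IsAlgClosed.splits (Q.map (algebraMap k K))
  have hprod := hsp.eq_prod_roots
  by_contra hno
  push Not at hno
  have hroots : ∀ r : K, W.valuation (z - ι r) = 1 := by
    intro r
    have h1 := hno r
    rw [ValuationSubring.mem_nonunits_iff, not_lt] at h1
    refine le_antisymm ?_ h1
    rw [ValuationSubring.valuation_le_one_iff]
    exact sub_mem hz (hK r)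
  have hunit : ∀ r : K, r ≠ 0 → W.valuation (ι r) = 1 := by
    intro r hr
    have h1 := (ValuationSubring.valuation_le_one_iff W _).2 (hK r)
    have h2 := (ValuationSubring.valuation_le_one_iff W _).2 (hK r⁻¹)
    rw [map_inv₀, map_inv₀] at h2
    have h3 : W.valuation (ι r) ≠ 0 := (Valuation.ne_zero_iff _).2 ((_root_.map_ne_zero _).2 hr)
    refine le_antisymm h1 ?_
    exact (inv_le_one₀ (zero_lt_iff.2 h3)).1 h2
  rw [hprod, eval₂_mul, eval₂_C, map_mul, hunit _ (leadingCoeff_ne_zero.2 hQK0), one_mul,
    eval₂_multiset_prod, map_multiset_prod, Multiset.map_map, Multiset.map_map] at hvQ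
  have h5 : (Multiset.map ((⇑W.valuation ∘ Polynomial.eval₂ ι z) ∘ fun a => X - C a)
      (Q.map (algebraMap k K)).roots).prod = 1 := by
    apply Multiset.prod_eq_one
    intro w hw
    obtain ⟨r, -, rfl⟩ := Multiset.mem_map.1 hw
    simp only [Function.comp_apply, eval₂_sub, eval₂_X, eval₂_C]
    exact hroots r
  rw [h5] at hvQ
  exact lt_irrefl _ hvQ

end Pool.Agent.V11235.SL
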