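import Mathlib

/-! # The inertia group of an unramified point of residue characteristic zero is trivial -/

set_option autoImplicit false

namespace Pool.Agent.V11235.SL

variable {F Ω : Type} [Field F] [Field Ω] [Algebra F Ω]

/-- the elements of `Ω` that are in `N` and fixed by `τ` -/
def fixF (N : IntermediateField F Ω) (τ : N ≃ₐ[F] N) : IntermediateField F Ω where
  carrier := {z | ∃ h : z ∈ N, τ ⟨z, h⟩ = ⟨z, h⟩}
  mul_mem' := by
    rintro a b ⟨h1, h2⟩ ⟨h3, h4⟩
    refine ⟨mul_mem h1 h3, ?_⟩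
    have h5 : (⟨a * b, mul_mem h1 h3⟩ : N) = ⟨a, h1⟩ * ⟨b, h3⟩ := rfl
    rw [h5, map_mul, h2, h4]
  add_mem' := by
    rintro a b ⟨h1, h2⟩ ⟨h3, h4⟩
    refine ⟨add_mem h1 h3, ?_⟩
    have h5 : (⟨a + b, add_mem h1 h3⟩ : N) = ⟨a, h1⟩ + ⟨b, h3⟩ := rfl
    rw [h5, map_add, h2, h4]
  algebraMap_mem' := fun a => ⟨N.algebraMap_mem a, τ.commutes a⟩
  inv_mem' := by
    rintro a ⟨h1, h2⟩
    refine ⟨inv_mem h1, ?_⟩
    have h5 : (⟨a⁻¹, inv_mem h1⟩ : N) = (⟨a, h1⟩ : N)⁻¹ := rfl
    rw [h5, map_inv₀, h2]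

lemma mem_fixF (N : IntermediateField F Ω) (τ : N ≃ₐ[F] N) (z : Ω) :
    z ∈ fixF N τ ↔ ∃ h : z ∈ N, τ ⟨z, h⟩ = ⟨z, h⟩ := Iff.rfl

/-- `τ` maps the normal extension `L` of `E₀` into itself if it fixes `E₀` -/
lemma normal_stable (E₀ N : IntermediateField F Ω) (L : IntermediateField E₀ Ω) [Normal E₀ L]
    (hLN : ∀ z ∈ L, z ∈ N) (τ : N ≃ₐ[F] N) (hE : ∀ z : N, (z : Ω) ∈ E₀ → τ z = z) (z : N)
    (hz : (z : Ω) ∈ L) : ((τ z : N) : Ω) ∈ L := by
  let g : L →ₐ[E₀] Ω :=
    { toFun := fun w => ((τ ⟨(w : Ω), hLN _ w.2⟩ : N) : Ω)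
      map_one' := by
        have h1 : (⟨((1 : L) : Ω), hLN _ (1 : L).2⟩ : N) = 1 := rfl
        rw [h1, map_one]
        rfl
      map_zero' := by
        have h1 : (⟨((0 : L) : Ω), hLN _ (0 : L).2⟩ : N) = 0 := rfl
        rw [h1, map_zero]
        rfl
      map_mul' := fun a b => by
        have h1 : (⟨((a * b : L) : Ω), hLN _ (a * b : L).2⟩ : N) =
          ⟨(a : Ω), hLN _ a.2⟩ * ⟨(b : Ω), hLN _ b.2⟩ := rfl
        rw [h1, map_mul]
        rfl
      map_add' := fun a b => by
        have h1 : (⟨((a + b : L) : Ω), hLN _ (a + b : L).2⟩ : N) =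
          ⟨(a : Ω), hLN _ a.2⟩ + ⟨(b : Ω), hLN _ b.2⟩ := rfl
        rw [h1, map_add]
        rfl
      commutes' := fun a => by
        have h1 := hE ⟨((algebraMap E₀ L a : L) : Ω), hLN _ (algebraMap E₀ L a).2⟩ a.2
        change ((τ ⟨((algebraMap E₀ L a : L) : Ω), hLN _ (algebraMap E₀ L a).2⟩ : N) : Ω) = _
        rw [h1]
        rfl }
  have h1 : g.fieldRange = L := AlgHom.fieldRange_of_normal g
  have h2 : g ⟨(z : Ω), hz⟩ ∈ g.fieldRange := ⟨_, rfl⟩
  rw [h1] at h2
  exact h2

/-- an automorphism `τ` of finite order with `|τ z - z| < |z|` is trivial -/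
lemma fixed_of_lt {N : Type} [Field N] [CharZero N] (W : ValuationSubring N)
    (hW : ∀ n : ℕ, n ≠ 0 → W.valuation (n : N) = 1)
    (P : N → Prop) (hP0 : ∀ a b, P a → P b → P (a - b)) (hPn : ∀ (n : ℕ) a, P a → P (n * a))
    (τ : N ≃+* N) (hPτ : ∀ a, P a → P (τ a))
    (hlt : ∀ a, P a → a ≠ 0 → W.valuation (τ a - a) < W.valuation a) (z : N) (hz : P z) (n : ℕ)
    (hn : n ≠ 0) (hnz : τ^[n] z = z) : τ z = z := by
  have hPi : ∀ (i : ℕ) a, P a → P (τ^[i] a) := by
    intro i
    induction i with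
    | zero => exact fun a ha => ha
    | succ i ih =>
      intro a ha
      rw [Function.iterate_succ_apply']
      exact hPτ _ (ih a ha)
  have h0 : P 0 := by
    have := hP0 z z hz hz
    rwa [sub_self] at this
  have hadd : ∀ a b, P a → P b → P (a + b) := by
    intro a b ha hb
    have h1 := hP0 a (0 - b) ha (hP0 0 b h0 hb)
    rwa [zero_sub, sub_neg_eq_add] at h1
  have hval : ∀ a, P a → W.valuation (τ a) = W.valuation a := by
    intro a ha
    rcases eq_or_ne a 0 with rfl | h1
    · rw [map_zero]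
    · have h2 := hlt a ha h1
      have h3 : τ a = a + (τ a - a) := by ring
      rw [h3]
      exact Valuation.map_add_eq_of_lt_left W.valuation h2
  have hvali : ∀ (i : ℕ) a, P a → W.valuation (τ^[i] a) = W.valuation a := by
    intro i
    induction i with
    | zero => exact fun a ha => rfl
    | succ i ih =>
      intro a ha
      rw [Function.iterate_succ_apply', hval _ (hPi i a ha), ih a ha]
  have hlti : ∀ (i : ℕ) a, P a → a ≠ 0 → W.valuation (a - τ^[i] a) < W.valuation a := by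
    intro i
    induction i with
    | zero =>
      intro a ha h1
      simp only [Function.iterate_zero, id_eq, sub_self, map_zero]
      exact zero_lt_iff.2 ((Valuation.ne_zero_iff _).2 h1)
    | succ i ih =>
      intro a ha h1
      rw [Function.iterate_succ_apply']
      have h2 : a - τ (τ^[i] a) = (a - τ^[i] a) - (τ (τ^[i] a) - τ^[i] a) := by ring
      rw [h2]
      refine lt_of_le_of_lt (Valuation.map_sub W.valuation _ _) (max_lt (ih a ha h1) ?_)
      have h3 : τ^[i] a ≠ 0 := by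
        intro h4
        have h5 := hvali i a ha
        rw [h4, map_zero] at h5
        exact (Valuation.ne_zero_iff _).2 h1 h5.symm
      refine lt_of_lt_of_eq (hlt _ (hPi i a ha) h3) (hvali i a ha)
  set S : N := ∑ i ∈ Finset.range n, τ^[i] z with hS
  have hPsum : ∀ m : ℕ, P (∑ i ∈ Finset.range m, τ^[i] z) := by
    intro m
    induction m with
    | zero => simpa using h0
    | succ m ih =>
      rw [Finset.sum_range_succ]
      exact hadd _ _ ih (hPi m z hz)
  have hτS : τ S = S := by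
    have h1 : τ S = ∑ i ∈ Finset.range n, τ^[i + 1] z := by
      rw [hS, map_sum]
      refine Finset.sum_congr rfl fun i _ => ?_
      rw [Function.iterate_succ_apply']
    have h2 := Finset.sum_range_succ' (fun i => τ^[i] z) n
    have h3 := Finset.sum_range_succ (fun i => τ^[i] z) n
    rw [h3, Function.iterate_zero, id_eq, hnz] at h2
    rw [h1, hS]
    exact (add_right_cancel h2).symm
  have hτSi : ∀ i : ℕ, τ^[i] S = S := by
    intro i
    induction i with
    | zero => rfl
    | succ i ih => rw [Function.iterate_succ_apply', ih, hτS]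
  set w : N := n * z - S with hw
  have hPw : P w := hP0 _ _ (hPn n z hz) (hPsum n)
  have hiw : ∀ i : ℕ, τ^[i] w = n * τ^[i] z - S := by
    intro i
    induction i with
    | zero => rfl
    | succ i ih =>
      rw [Function.iterate_succ_apply', ih, map_sub, map_mul, map_natCast, hτS,
        Function.iterate_succ_apply']
  have hw0 : w = 0 := by
    by_contra hne
    have h1 : ∑ i ∈ Finset.range n, τ^[i] w = 0 := by
      simp only [hiw]
      rw [Finset.sum_sub_distrib, ← Finset.mul_sum, ← hS, Finset.sum_const, Finset.card_range,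
        nsmul_eq_mul, sub_self]
    have h2 : (n : N) * w = ∑ i ∈ Finset.range n, (w - τ^[i] w) := by
      rw [Finset.sum_sub_distrib, h1, Finset.sum_const, Finset.card_range, nsmul_eq_mul, sub_zero]
    have h3 : W.valuation ((n : N) * w) < W.valuation w := by
      rw [h2]
      refine Valuation.map_sum_lt _ ((Valuation.ne_zero_iff _).2 hne) fun i _ => hlti i w hPw hne
    rw [map_mul, hW n hn, one_mul] at h3
    exact lt_irrefl _ h3
  have hn' : (n : N) ≠ 0 := Nat.cast_ne_zero.2 hn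
  have h1 : (n : N) * z = S := sub_eq_zero.1 hw0
  apply mul_left_cancel₀ hn'
  calc (n : N) * τ z = τ (n * z) := by rw [map_mul, map_natCast]
    _ = n * z := by rw [h1, hτS]

/-- the inertia group acts trivially on an unramified extension -/
theorem triv [CharZero Ω] [Algebra.IsAlgebraic F Ω] (E₀ N : IntermediateField F Ω)
    (L : IntermediateField E₀ Ω) [Normal E₀ L]
    (hLN : ∀ z ∈ L, z ∈ N) {κ : Type} [Field κ] (W : ValuationSubring N) (ι : κ →+* N)
    (hW : ∀ c, ι c ∈ W) (hιE : ∀ c, ((ι c : N) : Ω) ∈ E₀) (τ : N ≃ₐ[F] N)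
    (hE : ∀ z : N, (z : Ω) ∈ E₀ → τ z = z)
    (hres : ∀ z : N, z ∈ W → ∃ c, z - ι c ∈ W.nonunits)
    (hun : ∀ z : N, (z : Ω) ∈ L → z ≠ 0 → ∃ t : N, (t : Ω) ∈ E₀ ∧ t ≠ 0 ∧ z / t ∈ W ∧
      (z / t)⁻¹ ∈ W)
    (hτW : ∀ z : N, (z : Ω) ∈ L → ((τ z : N) : Ω) ∈ L → (τ z ∈ W ↔ z ∈ W)) (z : N)
    (hz : (z : Ω) ∈ L) : τ z = z := by
  have hcN : CharZero N := ⟨fun a b h => by
    have h1 := congrArg (algebraMap N Ω) h
    rw [map_natCast, map_natCast] at h1
    exact Nat.cast_injective h1⟩
  have hcκ : CharZero κ := ⟨fun a b h => by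
    have h1 := congrArg ι h
    rw [map_natCast, map_natCast] at h1
    exact Nat.cast_injective h1⟩
  have hEL : ∀ z : N, (z : Ω) ∈ E₀ → (z : Ω) ∈ L := fun z hz => L.algebraMap_mem ⟨(z : Ω), hz⟩
  have hst : ∀ a : N, (a : Ω) ∈ L → ((τ a : N) : Ω) ∈ L :=
    fun a ha => normal_stable E₀ N L hLN τ hE a ha
  have hmem : ∀ a : N, (a : Ω) ∈ L → (τ a ∈ W ↔ a ∈ W) := fun a ha => hτW a ha (hst a ha)
  have hnon : ∀ a : N, (a : Ω) ∈ L → a ∈ W.nonunits → τ a ∈ W.nonunits := by
    intro a ha h1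
    rw [ValuationSubring.mem_nonunits_iff_or] at h1 ⊢
    rcases h1 with h | h
    · left
      rw [h, map_zero]
    · right
      rw [← map_inv₀]
      intro h2
      exact h ((hmem _ (inv_mem ha)).1 h2)
  -- the period of `z`
  obtain ⟨n, hn, hnz⟩ : ∃ n : ℕ, n ≠ 0 ∧ τ.toRingEquiv^[n] z = z := by
    classical
    have halg : IsAlgebraic F z := (isAlgebraic_algebraMap_iff (R := F) (S := N) (A := Ω)
      (algebraMap N Ω).injective).1 (Algebra.IsAlgebraic.isAlgebraic _)
    have hp0 : minpoly F z ≠ 0 := minpoly.ne_zero halg.isIntegral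
    have hroot : ∀ i : ℕ, τ.toRingEquiv^[i] z ∈ (minpoly F z).rootSet N := by
      intro i
      induction i with
      | zero => exact (Polynomial.mem_rootSet_of_ne hp0).2 (minpoly.aeval F z)
      | succ i ih =>
        rw [Function.iterate_succ_apply']
        have h1 := (Polynomial.mem_rootSet_of_ne hp0).1 ih
        refine (Polynomial.mem_rootSet_of_ne hp0).2 ?_
        change Polynomial.aeval ((τ : N →ₐ[F] N) _) _ = 0
        rw [Polynomial.aeval_algHom_apply, h1, map_zero]
    obtain ⟨i, j, hne, hij⟩ := Finite.exists_ne_map_eq_of_infinite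
      (fun i : ℕ => (⟨τ.toRingEquiv^[i] z, hroot i⟩ : (minpoly F z).rootSet N))
    have hij' : τ.toRingEquiv^[i] z = τ.toRingEquiv^[j] z := congrArg Subtype.val hij
    have key : ∀ i j : ℕ, i < j → τ.toRingEquiv^[i] z = τ.toRingEquiv^[j] z →
        ∃ n : ℕ, n ≠ 0 ∧ τ.toRingEquiv^[n] z = z := by
      intro i j h1 h2
      refine ⟨j - i, by omega, ?_⟩
      have h3 : j = i + (j - i) := by omega
      rw [h3, Function.iterate_add_apply] at h2
      exact (Function.Injective.iterate τ.toRingEquiv.injective i h2).symm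
    rcases lt_or_gt_of_ne hne with h | h
    · exact key i j h hij'
    · exact key j i h hij'.symm
  refine fixed_of_lt W ?_ (fun a => (a : Ω) ∈ L) (fun a b ha hb => sub_mem ha hb)
    (fun n a ha => mul_mem (natCast_mem L n) ha) τ.toRingEquiv hst ?_ z hz n hn hnz
  · intro n hn
    have h1 := (ValuationSubring.valuation_le_one_iff W _).2 (hW (n : κ))
    have h2 := (ValuationSubring.valuation_le_one_iff W _).2 (hW ((n : κ)⁻¹))
    rw [map_natCast] at h1
    rw [map_inv₀, map_natCast, map_inv₀] at h2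
    have h3 : W.valuation (n : N) ≠ 0 := (Valuation.ne_zero_iff _).2 (Nat.cast_ne_zero.2 hn)
    exact le_antisymm h1 ((inv_le_one₀ (zero_lt_iff.2 h3)).1 h2)
  · intro a ha ha0
    obtain ⟨t, htE, ht0, h1, h2⟩ := hun a ha ha0
    obtain ⟨c, hc⟩ := hres _ h1
    have htL : (t : Ω) ∈ L := hEL t htE
    have hcL : ((ι c : N) : Ω) ∈ L := hEL _ (hιE c)
    have hwL : ((a / t - ι c : N) : Ω) ∈ L := sub_mem (div_mem ha htL) hcL
    have hc' := hnon _ hwL hc
    rw [map_sub, map_div₀, hE t htE, hE _ (hιE c)] at hc'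
    have h3 : τ a - a = t * ((τ a / t - ι c) - (a / t - ι c)) := by
      field_simp
      ring
    have h4 : W.valuation ((τ a / t - ι c) - (a / t - ι c)) < 1 :=
      lt_of_le_of_lt (Valuation.map_sub W.valuation _ _)
        (max_lt ((ValuationSubring.mem_nonunits_iff W).1 hc')
          ((ValuationSubring.mem_nonunits_iff W).1 hc))
    have h5 : W.valuation a = W.valuation t := by
      have h6 := (ValuationSubring.valuation_le_one_iff W _).2 h1
      have h7 := (ValuationSubring.valuation_le_one_iff W _).2 h2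
      have h8 : W.valuation (a / t) ≠ 0 := (Valuation.ne_zero_iff _).2 (div_ne_zero ha0 ht0)
      rw [map_inv₀] at h7
      have h9 : W.valuation (a / t) = 1 := le_antisymm h6 ((inv_le_one₀ (zero_lt_iff.2 h8)).1 h7)
      have h10 : a = (a / t) * t := by field_simp
      conv_lhs => rw [h10]
      rw [map_mul, h9, one_mul]
    change W.valuation (τ a - a) < W.valuation a
    rw [h3, map_mul, h5]
    exact mul_lt_of_lt_one_right (zero_lt_iff.2 ((Valuation.ne_zero_iff _).2 ht0)) h4

end Pool.Agent.V11235.SL
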